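import Pool.Agent.W719.AR.Rt
import Pool.Agent.W349.HT.Gdl

/-!
# Part AR-LMD of project AR: the limit of the divided differences at the root of unity
(helper490; adapted from `Pool.Agent.W349.HT.Gdl`)
-/

set_option autoImplicit false

namespace Pool.Agent.W490.AR

open Filter Finset EvenVol Pool.Agent.W709.VC Pool.Agent.H112R4.VL MeasureTheory
open Pool.Agent.W349.HT Pool.Agent.W719.AR
open scoped Real Topology

noncomputable def PF (F : ℂ → ℂ) (_ : ℂ) (φ : ℂ) : ℂ := F (φ - π) * (-2 * Complex.sin φ)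

/-- the product over a finite set of nodes -/
noncomputable def QF (N : ℕ) (T : Finset ℕ) (s : ℂ) (φ : ℂ) : ℂ :=
  ∏ j ∈ T, (2 * Complex.cos φ - 2 * Complex.cos (zz N s j))

lemma PF_cont {F : ℂ → ℂ} (hF : Differentiable ℂ F) : Continuous (Function.uncurry (PF F)) := by
  unfold PF Function.uncurry
  have := hF.continuous
  fun_prop

lemma QF_cont (N : ℕ) (T : Finset ℕ) : Continuous (Function.uncurry (QF N T)) := by
  unfold QF zz Function.uncurry
  fun_prop

/-- The residue sum. -/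
lemma rect_QF {F : ℂ → ℂ} (hF : Differentiable ℂ F) (hev : ∀ z, F (-z) = F z)
    (N : ℕ) (T : Finset ℕ) (hT : T.Nonempty) (s : ℂ) (h : ℝ)
    (hnode : ∀ j ∈ T, 0 < (zz N s j).re ∧ (zz N s j).re < 2 * π ∧ |(zz N s j).im| < h)
    (hinj : Set.InjOn (fun j : ℕ => 2 * Complex.cos (zz N s j)) T) :
    Pool.Agent.W709.VC.rect (fun φ => PF F s φ / QF N T s φ) 0 (2 * π) (-h) h =
      4 * π * Complex.I * ∑ k ∈ T,
        Lagrange.nodalWeight T (fun j : ℕ => 2 * Complex.cos (zz N s j)) k *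
          F (zz N s k - π) := by
  have hR := Pool.Agent.W973.VcRect.rect
  have hf : Differentiable ℂ (fun z => F (z - π)) := by fun_prop
  have hsym : ∀ z : ℂ, F (2 * π - z - π) = F (z - π) := by
    intro z
    rw [← hev (z - π)]
    congr 1
    ring
  have step1 : Pool.Agent.W709.VC.rect (fun φ => PF F s φ / QF N T s φ) 0 (2 * π) (-h) h =
      Pool.Agent.W709.VC.rect (fun φ => ∑ k ∈ T,
        Lagrange.nodalWeight T (fun j : ℕ => 2 * Complex.cos (zz N s j)) k *
          (F (φ - π) * KK (zz N s k) φ + F (φ - π) * KK (2 * π - zz N s k) φ))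
        0 (2 * π) (-h) h := by
    apply rect_congr
    intro φ hφ
    have hne : ∀ j ∈ T, Complex.cos φ ≠ Complex.cos (zz N s j) := fun j hj =>
      bd_ne (hnode j hj).1 (hnode j hj).2.1 (hnode j hj).2.2 hφ
    have hne2 : ∀ j ∈ T, 2 * Complex.cos φ ≠ 2 * Complex.cos (zz N s j) := by
      intro j hj h3
      exact hne j hj (mul_left_cancel₀ two_ne_zero h3)
    have h1 := Lagrange.eval_interpolate_not_at_node (s := T)
      (v := fun j : ℕ => 2 * Complex.cos (zz N s j)) (1 : ℕ → ℂ) (x := 2 * Complex.cos φ) hne2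
    rw [Lagrange.interpolate_one hinj hT, Polynomial.eval_one, Lagrange.eval_nodal] at h1
    have hQ : QF N T s φ = ∏ j ∈ T, (2 * Complex.cos φ - 2 * Complex.cos (zz N s j)) :=
      rfl
    rw [← hQ] at h1
    have hQ0 : QF N T s φ ≠ 0 := by
      intro h0
      rw [h0] at h1
      simp at h1
    show PF F s φ / QF N T s φ = _
    have h2 : (QF N T s φ)⁻¹ = ∑ i ∈ T, Lagrange.nodalWeight T
        (fun j : ℕ => 2 * Complex.cos (zz N s j)) i * (2 * Complex.cos φ - 2 * Complex.cos (zz N s i))⁻¹ := by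
      rw [inv_eq_one_div, div_eq_iff hQ0, mul_comm]
      simpa using h1
    rw [div_eq_mul_inv, h2, Finset.mul_sum]
    apply Finset.sum_congr rfl
    intro k hk
    rw [← mul_add, ← kernel_eq (hne k hk)]
    unfold PF
    ring
  rw [step1]
  have hRI1 : ∀ k ∈ T, RI (fun φ => F (φ - π) * KK (zz N s k) φ) 0 (2 * π) (-h) h := by
    intro k hk
    apply RI_of_cont
    intro z hz
    have h1 := bd_ne (hnode k hk).1 (hnode k hk).2.1 (hnode k hk).2.2 hz
    exact (hf.continuous.continuousAt).mul (KK_cont (sin_ne h1).1)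
  have hRI2 : ∀ k ∈ T,
      RI (fun φ => F (φ - π) * KK (2 * π - zz N s k) φ) 0 (2 * π) (-h) h := by
    intro k hk
    apply RI_of_cont
    intro z hz
    have h1 := bd_ne (hnode k hk).1 (hnode k hk).2.1 (hnode k hk).2.2 hz
    refine (hf.continuous.continuousAt).mul (KK_cont ?_)
    have e1 : (z - (2 * π - zz N s k)) / 2 = (z + zz N s k) / 2 - π := by ring
    rw [e1, Complex.sin_sub_pi]
    exact neg_ne_zero.2 (sin_ne h1).2
  have hRI3 : ∀ k ∈ T, RI (fun φ =>
      Lagrange.nodalWeight T (fun j : ℕ => 2 * Complex.cos (zz N s j)) k *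
      (F (φ - π) * KK (zz N s k) φ + F (φ - π) * KK (2 * π - zz N s k) φ))
      0 (2 * π) (-h) h := by
    intro k hk
    have := RI_add (hRI1 k hk) (hRI2 k hk)
    exact ⟨this.1.const_mul _, this.2.1.const_mul _, this.2.2.1.const_mul _,
      this.2.2.2.const_mul _⟩
  rw [rect_sum _ hRI3, Finset.mul_sum]
  apply Finset.sum_congr rfl
  intro k hk
  rw [rect_mul, rect_add (hRI1 k hk) (hRI2 k hk)]
  obtain ⟨g1, g2, g3⟩ := hnode k hk
  have r1 := hR (fun z => F (z - π)) (zz N s k) h hf g1 g2 g3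
  have r2 := hR (fun z => F (z - π)) (2 * π - zz N s k) h hf
    (by simp; linarith) (by simp; linarith) (by simpa using g3)
  have r1' : Pool.Agent.W709.VC.rect (fun φ => F (φ - π) * KK (zz N s k) φ) 0 (2 * π) (-h) h =
      2 * π * Complex.I * F (zz N s k - π) := r1
  have r2' : Pool.Agent.W709.VC.rect (fun φ => F (φ - π) * KK (2 * π - zz N s k) φ) 0 (2 * π) (-h) h =
      2 * π * Complex.I * F (2 * π - zz N s k - π) := r2
  rw [r1', r2', hsym]
  ring

/-- the integrand at the root of unity -/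
noncomputable def GZ (F : ℂ → ℂ) (N n : ℕ) (ψ : ℂ) : ℂ :=
  F ψ * Pool.Agent.W711.HT.Rp N (N - 1 - n) ψ * Pool.Agent.W711.HT.kr N ψ

/-- identification with `GZ` -/
lemma rect_GZ {F : ℂ → ℂ} {N n : ℕ} (hn : n < N) {h : ℝ} (hh : 0 < h) :
    Pool.Agent.W709.VC.rect (fun φ => PF F 1 φ / QF N (range (n + 1)) 1 φ) 0 (2 * π) (-h) h =
      (-1) ^ (N - 1 - n) * Pool.Agent.W709.VC.rect (GZ F N n) (-π) π (-h) h := by
  have hN : 0 < N := by omega
  have hN0 : (N : ℂ) ≠ 0 := by exact_mod_cast hN.ne'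
  have hs := rect_shift (fun φ => PF F 1 φ / QF N (range (n + 1)) 1 φ) (-π) π (-h) h π
  have e0 : -π + π = 0 := by ring
  have e1 : π + π = 2 * π := by ring
  rw [e0, e1] at hs
  rw [← hs, ← rect_mul]
  apply rect_congr
  intro ψ hψ
  have hQ : QF N (range (n + 1)) 1 (ψ + π) = RR N (n + 1) ψ := by
    unfold QF RR
    apply Finset.prod_congr rfl
    intro j _
    rw [zz_one, Complex.cos_add_pi, Complex.ofReal_cos]
    ring
  have hP : PF F 1 (ψ + π) = F ψ * (2 * Complex.sin ψ) := by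
    unfold PF
    rw [Complex.sin_add_pi, add_sub_cancel_right]
    ring
  show PF F 1 (ψ + π) / QF N (range (n + 1)) 1 (ψ + π) = _
  have h1 := RR_ne (N := N) hh hψ (d := n + 1) (by omega)
  have h2 := RR_ne (N := N) hh hψ (d := N - 1 - n) (by omega)
  rw [hQ, hP]
  unfold GZ Pool.Agent.W711.HT.kr
  rw [← prod_phi hN ψ]
  have h6 : (-1 : ℂ) ^ (N - 1 - n) * (F ψ *
      Pool.Agent.W711.HT.Rp N (N - 1 - n) ψ *
      (2 * Complex.sin ψ / RR N N ψ)) = F ψ *
      ((-1 : ℂ) ^ (N - 1 - n) * Pool.Agent.W711.HT.Rp N (N - 1 - n) ψ) *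
      (2 * Complex.sin ψ / RR N N ψ) := by ring
  rw [h6, ← RR_Rp, RR_split hn ψ]
  field_simp

lemma GZ_odd {F : ℂ → ℂ} (hev : ∀ z, F (-z) = F z) (N n : ℕ) (ψ : ℂ) :
    GZ F N n (-ψ) = -GZ F N n ψ := by
  unfold GZ
  rw [Rp_even, kr_odd, hev]
  ring

lemma GZ_RI {F : ℂ → ℂ} (hF : Differentiable ℂ F) {N n : ℕ} (hN : 0 < N) {h : ℝ} (hh : 0 < h) :
    RI (GZ F N n) (-π) π (-h) h := by
  apply RI_of_cont
  intro z hz
  have h1 := RR_ne (N := N) hh hz (d := N) le_rfl
  rw [prod_phi hN] at h1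
  have hc := hF.continuous
  unfold GZ Pool.Agent.W711.HT.kr Pool.Agent.W711.HT.Rp
  refine ContinuousAt.mul (by fun_prop) (ContinuousAt.div (by fun_prop) (by fun_prop) h1)

/-- everything is regular near the root of unity -/
lemma near0 {N : ℕ} (hN : 2 ≤ N) {h : ℝ} (hh : 0 < h) :
    ∀ᶠ v in 𝓝[≠] (v0 N), v ≠ 0 ∧
      Set.InjOn (fun j : ℕ => uu v (j : ℤ)) (range N) ∧
      ∀ j ∈ range N,
      0 < (zz N (sv N v) j).re ∧ (zz N (sv N v) j).re < 2 * π ∧ |(zz N (sv N v) j).im| < h := by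
  have hv0 : v0 N ≠ 0 := TE.v0_ne hN
  have hNp : 0 < N := by omega
  have hne : ∀ᶠ v in 𝓝[≠] (v0 N), v ≠ 0 :=
    (continuousAt_id.eventually_ne hv0).filter_mono nhdsWithin_le_nhds
  have hall : ∀ᶠ v in 𝓝[≠] (v0 N), ∀ j ∈ range (2 * N - 1), br v ((j : ℤ) + 1) ≠ 0 := by
    rw [Filter.eventually_all_finset]
    intro j hj
    rw [Finset.mem_range] at hj
    by_cases hjN : j + 1 = N
    · have := TE.brN_ne hN
      rw [show ((j : ℤ) + 1) = (N : ℤ) by exact_mod_cast hjN]
      exact this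
    · have h1 : br (v0 N) ((j : ℤ) + 1) ≠ 0 := by
        apply TE.br_ne hN
        intro hd
        have hd' : N ∣ j + 1 := by exact_mod_cast hd
        obtain ⟨c, hc⟩ := hd'
        have : c < 2 := by
          by_contra hh
          push Not at hh
          have := Nat.mul_le_mul_left N hh
          omega
        interval_cases c <;> omega
      exact ((TE.br_diff _ hv0).continuousAt.eventually_ne h1).filter_mono nhdsWithin_le_nhds
  have hnode : ∀ᶠ v in 𝓝[≠] (v0 N), ∀ j ∈ range N,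
      0 < (zz N (sv N v) j).re ∧ (zz N (sv N v) j).re < 2 * π ∧ |(zz N (sv N v) j).im| < h := by
    rw [Filter.eventually_all_finset]
    intro j hj
    rw [Finset.mem_range] at hj
    have hc : ContinuousAt (fun v => zz N (sv N v) j) (v0 N) := by
      unfold zz
      exact ((continuousAt_const.mul (sv_cont hN)).mul continuousAt_const).div_const _
    have hval : zz N (sv N (v0 N)) j = ((Pool.Agent.W709.VC.phi N j : ℝ) : ℂ) := by
      rw [sv_v0 hN]
      exact zz_one N j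
    have h1 := phi_mem (N := N) (j := j) (by omega)
    have hre : ContinuousAt (fun v => (zz N (sv N v) j).re) (v0 N) :=
      Complex.continuous_re.continuousAt.comp hc
    have him : ContinuousAt (fun v => |(zz N (sv N v) j).im|) (v0 N) :=
      (Complex.continuous_im.continuousAt.comp hc).abs
    have a1 : 0 < (zz N (sv N (v0 N)) j).re := by rw [hval]; simpa using h1.1
    have a2 : (zz N (sv N (v0 N)) j).re < 2 * π := by rw [hval]; simpa using h1.2
    have a3 : |(zz N (sv N (v0 N)) j).im| < h := by rw [hval]; simpa using hh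
    have b1 := hre.eventually_const_lt a1
    have b2 := hre.eventually_lt_const a2
    have b3 := him.eventually_lt_const a3
    exact ((b1.and (b2.and b3))).filter_mono nhdsWithin_le_nhds
  filter_upwards [hne, hall, hnode] with v hv hbv hnd
  refine ⟨hv, ?_, hnd⟩
  have hb : brf v (2 * (N - 1) + 1) ≠ 0 := by
    unfold brf
    rw [Finset.prod_ne_zero_iff]
    intro j hj
    rw [Finset.mem_range] at hj
    exact hbv j (Finset.mem_range.2 (by omega))
  have := uu_inj hv hb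
  rwa [Nat.sub_add_cancel hNp] at this

/-- the values of `F` at the nodes -/
noncomputable def yy (F : ℂ → ℂ) (N : ℕ) (v : ℂ) (c : ℕ) : ℂ := F (zz N (sv N v) c - π)

lemma near {F : ℂ → ℂ} (hF : Differentiable ℂ F) (hev : ∀ z, F (-z) = F z) {N : ℕ} (hN : 2 ≤ N)
    {n : ℕ} (hn : n < N) {h : ℝ} (hh : 0 < h) :
    ∀ᶠ v in 𝓝[≠] (v0 N), dd v (yy F N v) n =
        Pool.Agent.W709.VC.rect (fun φ => PF F (sv N v) φ /
          QF N (range (n + 1)) (sv N v) φ) 0 (2 * π) (-h) h / (4 * π * Complex.I) := by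
  have hNp : 0 < N := by omega
  filter_upwards [near0 hN hh] with v ⟨hv, hinj, hnd⟩
  have hfun : (fun j : ℕ => uu v (j : ℤ)) = (fun j : ℕ => 2 * Complex.cos (zz N (sv N v) j)) := by
    funext j
    exact uu_zz hNp hv j
  have hsub : ∀ j ∈ range (n + 1), j ∈ range N := by
    intro j hj
    rw [Finset.mem_range] at hj ⊢
    omega
  rw [hfun] at hinj
  have hinj' : Set.InjOn (fun j : ℕ => 2 * Complex.cos (zz N (sv N v) j)) (range (n + 1)) :=
    hinj.mono (fun j hj => hsub j hj)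
  rw [rect_QF hF hev N (range (n + 1)) ⟨0, by simp⟩ (sv N v) h
    (fun j hj => hnd j (hsub j hj)) hinj']
  have hpi : (4 * π * Complex.I : ℂ) ≠ 0 := by
    have : (π : ℂ) ≠ 0 := by exact_mod_cast Real.pi_ne_zero
    simp [this]
  rw [mul_div_cancel_left₀ _ hpi]
  unfold dd yy
  have hfun2 : Pool.Agent.W711.HT.un v = fun j : ℕ => 2 * Complex.cos (zz N (sv N v) j) := hfun
  apply Finset.sum_congr rfl
  intro k _
  rw [hfun2]
  unfold Lagrange.nodalWeight
  rw [Finset.prod_inv_distrib]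
  ring

lemma sv_tendsto {N : ℕ} (hN : 2 ≤ N) : Tendsto (sv N) (𝓝[≠] (v0 N)) (𝓝 1) := by
  have := (sv_cont hN).tendsto
  rw [sv_v0 hN] at this
  exact this.mono_left nhdsWithin_le_nhds

/-- the limit for the values of `F` -/
lemma lim_yy {F : ℂ → ℂ} (hF : Differentiable ℂ F) (hev : ∀ z, F (-z) = F z) {N : ℕ} (hN : 2 ≤ N)
    {n : ℕ} (hn : n < N) :
    Tendsto (fun v => dd v (yy F N v) n) (𝓝[≠] (v0 N)) (𝓝 (Complex.I / (2 * π) * (-1) ^ (N - 1 - n) *
    Pool.Agent.W711.HT.upp (1 / N) fun ψ => F ψ * Pool.Agent.W711.HT.Rp N (N - 1 - n) ψ *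
      Pool.Agent.W711.HT.kr N ψ)) := by
  have hNp : 0 < N := by omega
  have hh : (0 : ℝ) < 1 / N := by positivity
  have hpi0 : (π : ℂ) ≠ 0 := by exact_mod_cast Real.pi_ne_zero
  have hI0 : Complex.I ≠ 0 := Complex.I_ne_zero
  have hr : Tendsto (fun v => Pool.Agent.W709.VC.rect (fun φ => PF F (sv N v) φ /
      QF N (range (n + 1)) (sv N v) φ) 0 (2 * π) (-(1 / N)) (1 / N)) (𝓝[≠] (v0 N))
      (𝓝 (Pool.Agent.W709.VC.rect (fun φ => PF F 1 φ / QF N (range (n + 1)) 1 φ) 0 (2 * π)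
        (-(1 / N)) (1 / N))) := by
    refine Tendsto.comp (tendsto_rect_div (X := ℂ) (PF_cont hF) (QF_cont N (range (n + 1)))
      (a := 0) (b := 2 * π) (c := -(1 / N)) (d := 1 / N) (p₀ := (1 : ℂ)) ?_) (sv_tendsto hN)
    intro z hz
    unfold QF
    rw [Finset.prod_ne_zero_iff]
    intro j hj
    rw [Finset.mem_range] at hj
    rw [zz_one N j]
    have h2 := phi_mem (N := N) (j := j) (by omega)
    have h3 := bd_ne (z := ((Pool.Agent.W709.VC.phi N j : ℝ) : ℂ)) (by simpa using h2.1)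
      (by simpa using h2.2) (by simpa using hh) hz
    intro h4
    apply h3
    linear_combination (1 / 2) * h4
  have hfin := hr.div_const (4 * π * Complex.I)
  rw [rect_GZ hn hh, rect_upp hh (GZ_odd hev N n) (GZ_RI hF hNp hh)] at hfin
  have hval : ((-1) ^ (N - 1 - n) *
      (-2 * Pool.Agent.W711.HT.upp (1 / N) (GZ F N n)) / (4 * π * Complex.I)) =
      Complex.I / (2 * π) * (-1) ^ (N - 1 - n) *
        Pool.Agent.W711.HT.upp (1 / N) fun ψ => F ψ *
          Pool.Agent.W711.HT.Rp N (N - 1 - n) ψ * Pool.Agent.W711.HT.kr N ψ := by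
    have e1 : (fun ψ => F ψ *
          Pool.Agent.W711.HT.Rp N (N - 1 - n) ψ * Pool.Agent.W711.HT.kr N ψ) = GZ F N n := rfl
    rw [e1]
    field_simp
    rw [Complex.I_sq]
    ring
  rw [hval] at hfin
  refine Tendsto.congr' ?_ hfin
  filter_upwards [near hF hev hN hn hh] with v hv
  rw [hv]

lemma slope2 {F : ℂ → ℂ} {p F' : ℂ} (hF : HasStrictDerivAt F F' p) {l : Filter ℂ} {a b : ℂ → ℂ}
    (ha : Tendsto a l (𝓝 p)) (hb : Tendsto b l (𝓝 p)) (hab : ∀ᶠ v in l, a v ≠ b v) :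
    Tendsto (fun v => (F (a v) - F (b v)) / (a v - b v)) l (𝓝 F') := by
  have h1 : Tendsto (fun v => (a v, b v)) l (𝓝 (p, p)) := ha.prodMk_nhds hb
  have h2 := (hF.isLittleO.comp_tendsto h1).tendsto_div_nhds_zero
  have h3 : Tendsto (fun v => (F (a v) - F (b v) - (a v - b v) * F') / (a v - b v) + F') l
      (𝓝 (0 + F')) := by
    refine Tendsto.add ?_ tendsto_const_nhds
    refine h2.congr fun v => ?_
    simp
  rw [zero_add] at h3
  refine Tendsto.congr' ?_ h3
  filter_upwards [hab] with v hv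
  have : a v - b v ≠ 0 := sub_ne_zero.2 hv
  field_simp
  ring

lemma prodq {l : Filter ℂ} (a b : ℂ → ℂ) (c : ℂ → ℕ → ℂ) (A : ℂ) (C : ℕ → ℂ)
    (ha : Tendsto a l (𝓝 A)) (hb : Tendsto b l (𝓝 A))
    (hc : ∀ j, Tendsto (fun v => c v j) l (𝓝 (C j))) (hab : ∀ᶠ v in l, a v ≠ b v)
    (T : Finset ℕ) :
    ∃ L, Tendsto (fun v => (∏ j ∈ T, (a v - c v j) - ∏ j ∈ T, (b v - c v j)) / (a v - b v)) l
      (𝓝 L) := by
  induction T using Finset.induction_on with
  | empty =>
    refine ⟨0, ?_⟩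
    simp only [Finset.prod_empty, sub_self, zero_div]
    exact tendsto_const_nhds
  | insert i T hi ih =>
    obtain ⟨L, hL⟩ := ih
    refine ⟨(A - C i) * L + ∏ j ∈ T, (A - C j), ?_⟩
    have h1 : Tendsto (fun v => ∏ j ∈ T, (b v - c v j)) l (𝓝 (∏ j ∈ T, (A - C j))) :=
      tendsto_finsetProd _ fun j _ => hb.sub (hc j)
    have h2 := (((ha.sub (hc i)).mul hL).add h1)
    refine Tendsto.congr' ?_ h2
    filter_upwards [hab] with v hv
    have : a v - b v ≠ 0 := sub_ne_zero.2 hv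
    rw [Finset.prod_insert hi, Finset.prod_insert hi]
    field_simp
    ring

lemma un_tendsto {N : ℕ} (hN : 2 ≤ N) (j : ℕ) :
    Tendsto (fun v => Pool.Agent.W711.HT.un v j) (𝓝[≠] (v0 N))
      (𝓝 (Pool.Agent.W711.HT.un (v0 N) j)) := by
  have hv0 : v0 N ≠ 0 := TE.v0_ne hN
  have h : ContinuousAt (fun v => Pool.Agent.W711.HT.un v j) (v0 N) := by
    unfold Pool.Agent.W711.HT.un
    exact (continuousAt_id.zpow₀ _ (Or.inl hv0)).add (continuousAt_id.zpow₀ _ (Or.inl hv0))
  exact h.tendsto.mono_left nhdsWithin_le_nhds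

lemma un_ne {N : ℕ} (hN : 2 ≤ N) {k j : ℕ} (hk : k < N) (hj : j < N) (h1 : j ≠ k)
    (h2 : j ≠ N - 1 - k) :
    Pool.Agent.W711.HT.un (v0 N) k - Pool.Agent.W711.HT.un (v0 N) j ≠ 0 := by
  have hv0 : v0 N ≠ 0 := TE.v0_ne hN
  rw [un_uu, un_uu, uu_sub hv0]
  apply mul_ne_zero
  · apply TE.br_ne hN
    rintro ⟨c, hc⟩
    have hc0 : c = 0 := by
      by_contra hne
      rcases lt_or_gt_of_ne hne with h | h
      · have : (N : ℤ) * c ≤ (N : ℤ) * (-1) := by
          apply mul_le_mul_of_nonneg_left <;> omega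
        omega
      · have : (N : ℤ) * 1 ≤ (N : ℤ) * c := by
          apply mul_le_mul_of_nonneg_left <;> omega
        omega
    subst hc0
    omega
  · apply TE.br_ne hN
    rintro ⟨c, hc⟩
    have hc1 : c = 1 := by
      by_contra hne
      rcases lt_or_gt_of_ne hne with h | h
      · have : (N : ℤ) * c ≤ (N : ℤ) * 0 := by
          apply mul_le_mul_of_nonneg_left <;> omega
        omega
      · have : (N : ℤ) * 2 ≤ (N : ℤ) * c := by
          apply mul_le_mul_of_nonneg_left <;> omega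
        omega
    subst hc1
    omega

lemma un_ev_ne {N : ℕ} (hN : 2 ≤ N) {k j : ℕ} (hk : k < N) (hj : j < N) (h1 : j ≠ k) :
    ∀ᶠ v in 𝓝[≠] (v0 N), Pool.Agent.W711.HT.un v k ≠ Pool.Agent.W711.HT.un v j := by
  filter_upwards [near0 hN one_pos] with v ⟨hv, hinj, hnd⟩
  intro h
  exact h1 (hinj (by simpa using hk) (by simpa using hj) h).symm

/-- weights -/
noncomputable def ww (n : ℕ) (v : ℂ) (k : ℕ) : ℂ :=
  1 / ∏ j ∈ (range (n + 1)).erase k, (Pool.Agent.W711.HT.un v k - Pool.Agent.W711.HT.un v j)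

lemma dd_ww (v : ℂ) (x : ℕ → ℂ) (n : ℕ) : dd v x n = ∑ k ∈ range (n + 1), x k * ww n v k := by
  unfold dd ww
  apply Finset.sum_congr rfl
  intro k _
  ring

/-- a node without partner -/
lemma ww_lim {N : ℕ} (hN : 2 ≤ N) {n : ℕ} (hn : n < N) {k : ℕ} (hk : k ≤ n)
    (hs : n < N - 1 - k ∨ N - 1 - k = k) : ∃ L, Tendsto (fun v => ww n v k) (𝓝[≠] (v0 N)) (𝓝 L) := by
  refine ⟨1 / ∏ j ∈ (range (n + 1)).erase k,
    (Pool.Agent.W711.HT.un (v0 N) k - Pool.Agent.W711.HT.un (v0 N) j), ?_⟩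
  unfold ww
  refine Tendsto.div tendsto_const_nhds
    (tendsto_finsetProd _ fun j _ => (un_tendsto hN k).sub (un_tendsto hN j)) ?_
  rw [Finset.prod_ne_zero_iff]
  intro j hj
  rw [Finset.mem_erase, Finset.mem_range] at hj
  apply un_ne hN (by omega) (by omega) hj.1
  omega

lemma term_zero {N : ℕ} (hN : 2 ≤ N) {n : ℕ} (hn : n < N) (z : ℂ → ℕ → ℂ)
    (hz : ∀ c < N, Tendsto (fun v => z v c) (𝓝[≠] (v0 N)) (𝓝 0))
    (hq : ∀ c < N, 2 * c + 1 ≠ N → Tendsto (fun v => (z v c - z v (N - 1 - c)) /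
      (Pool.Agent.W711.HT.un v c - Pool.Agent.W711.HT.un v (N - 1 - c))) (𝓝[≠] (v0 N)) (𝓝 0))
    {k : ℕ} (hk : k ≤ n) (hs : N - 1 - k ≤ n) :
    Tendsto (fun v => z v k * ww n v k + z v (N - 1 - k) * ww n v (N - 1 - k))
      (𝓝[≠] (v0 N)) (𝓝 0) := by
  by_cases hkk : N - 1 - k = k
  · obtain ⟨L, hL⟩ := ww_lim hN hn hk (Or.inr hkk)
    rw [hkk]
    have := ((hz k (by omega)).mul hL).add ((hz k (by omega)).mul hL)
    simpa using this
  · set k' := N - 1 - k with hk'
    set E := ((range (n + 1)).erase k).erase k' with hE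
    have hE' : ((range (n + 1)).erase k').erase k = E := Finset.erase_right_comm
    have hne := un_ev_ne hN (k := k) (j := k') (by omega) (by omega) hkk
    have hP : ∀ i, i = k ∨ i = k' → Tendsto
        (fun v => ∏ j ∈ E, (Pool.Agent.W711.HT.un v i - Pool.Agent.W711.HT.un v j)) (𝓝[≠] (v0 N))
        (𝓝 (∏ j ∈ E, (Pool.Agent.W711.HT.un (v0 N) i - Pool.Agent.W711.HT.un (v0 N) j))) := by
      intro i _
      exact tendsto_finsetProd _ fun j _ => (un_tendsto hN i).sub (un_tendsto hN j)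
    have hP0 : ∀ i, i = k ∨ i = k' →
        ∏ j ∈ E, (Pool.Agent.W711.HT.un (v0 N) i - Pool.Agent.W711.HT.un (v0 N) j) ≠ 0 := by
      intro i hi
      rw [Finset.prod_ne_zero_iff]
      intro j hj
      rw [hE, Finset.mem_erase, Finset.mem_erase, Finset.mem_range] at hj
      apply un_ne hN (by omega) (by omega) <;> omega
    have hPe : ∀ i, i = k ∨ i = k' → ∀ᶠ v in 𝓝[≠] (v0 N),
        ∏ j ∈ E, (Pool.Agent.W711.HT.un v i - Pool.Agent.W711.HT.un v j) ≠ 0 :=
      fun i hi => (hP i hi).eventually_ne (hP0 i hi)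
    have hu : Pool.Agent.W711.HT.un (v0 N) k = Pool.Agent.W711.HT.un (v0 N) k' := by
      have hv0 : v0 N ≠ 0 := TE.v0_ne hN
      have h1 : Pool.Agent.W711.HT.un (v0 N) k - Pool.Agent.W711.HT.un (v0 N) k' = 0 := by
        rw [un_uu, un_uu, uu_sub hv0]
        have : ((k : ℤ) + (k' : ℤ) + 1) = (N : ℤ) := by omega
        rw [this, TE.br_N hN, mul_zero]
      exact sub_eq_zero.1 h1
    obtain ⟨L, hL⟩ := prodq (l := 𝓝[≠] (v0 N)) (fun v => Pool.Agent.W711.HT.un v k)
      (fun v => Pool.Agent.W711.HT.un v k') (fun v j => Pool.Agent.W711.HT.un v j)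
      (Pool.Agent.W711.HT.un (v0 N) k) (fun j => Pool.Agent.W711.HT.un (v0 N) j)
      (un_tendsto hN k) (hu ▸ un_tendsto hN k') (fun j => un_tendsto hN j) hne E
    have hqk := hq k (by omega) (by omega)
    rw [← hk'] at hqk
    have h1 := hqk.div (hP k (Or.inl rfl)) (hP0 k (Or.inl rfl))
    have h2 := ((hz k' (by omega)).mul hL).div ((hP k (Or.inl rfl)).mul (hP k' (Or.inr rfl)))
      (mul_ne_zero (hP0 k (Or.inl rfl)) (hP0 k' (Or.inr rfl)))
    have h3 := h1.sub h2
    rw [zero_div, zero_mul, zero_div, sub_zero] at h3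
    refine Tendsto.congr' ?_ h3
    filter_upwards [hne, hPe k (Or.inl rfl), hPe k' (Or.inr rfl)] with v g1 g2 g3
    have e1 : ww n v k = 1 / ((Pool.Agent.W711.HT.un v k - Pool.Agent.W711.HT.un v k') *
        ∏ j ∈ E, (Pool.Agent.W711.HT.un v k - Pool.Agent.W711.HT.un v j)) := by
      unfold ww
      rw [hE, Finset.mul_prod_erase ((range (n + 1)).erase k)
        (fun j => Pool.Agent.W711.HT.un v k - Pool.Agent.W711.HT.un v j)]
      rw [Finset.mem_erase, Finset.mem_range]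
      omega
    have e2 : ww n v k' = 1 / ((Pool.Agent.W711.HT.un v k' - Pool.Agent.W711.HT.un v k) *
        ∏ j ∈ E, (Pool.Agent.W711.HT.un v k' - Pool.Agent.W711.HT.un v j)) := by
      unfold ww
      rw [← hE', Finset.mul_prod_erase ((range (n + 1)).erase k')
        (fun j => Pool.Agent.W711.HT.un v k' - Pool.Agent.W711.HT.un v j)]
      rw [Finset.mem_erase, Finset.mem_range]
      omega
    rw [e1, e2]
    simp only [Pi.div_apply]
    have g0 : Pool.Agent.W711.HT.un v k - Pool.Agent.W711.HT.un v k' ≠ 0 := sub_ne_zero.2 g1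
    have g0' : Pool.Agent.W711.HT.un v k' - Pool.Agent.W711.HT.un v k =
      -(Pool.Agent.W711.HT.un v k - Pool.Agent.W711.HT.un v k') := by ring
    rw [g0']
    clear e1 e2 g0' hL h1 h2 h3
    generalize ∏ j ∈ E, (Pool.Agent.W711.HT.un v k - Pool.Agent.W711.HT.un v j) = P at g2 ⊢
    generalize ∏ j ∈ E, (Pool.Agent.W711.HT.un v k' - Pool.Agent.W711.HT.un v j) = P' at g3 ⊢
    generalize Pool.Agent.W711.HT.un v k - Pool.Agent.W711.HT.un v k' = D at g0 ⊢
    field_simp
    ring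

lemma dd_zero {N : ℕ} (hN : 2 ≤ N) {n : ℕ} (hn : n < N) (z : ℂ → ℕ → ℂ)
    (hz : ∀ c < N, Tendsto (fun v => z v c) (𝓝[≠] (v0 N)) (𝓝 0))
    (hq : ∀ c < N, 2 * c + 1 ≠ N → Tendsto (fun v => (z v c - z v (N - 1 - c)) /
      (Pool.Agent.W711.HT.un v c - Pool.Agent.W711.HT.un v (N - 1 - c))) (𝓝[≠] (v0 N)) (𝓝 0)) :
    Tendsto (fun v => dd v (z v) n) (𝓝[≠] (v0 N)) (𝓝 0) := by
  have key : ∀ v, dd v (z v) n =
      (∑ k ∈ (range (n + 1)).filter (fun k => N - 1 - k ≤ n),
        (z v k * ww n v k + z v (N - 1 - k) * ww n v (N - 1 - k))) / 2 +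
      ∑ k ∈ (range (n + 1)).filter (fun k => ¬ N - 1 - k ≤ n), z v k * ww n v k := by
    intro v
    have h1 : ∑ k ∈ (range (n + 1)).filter (fun k => N - 1 - k ≤ n),
        z v (N - 1 - k) * ww n v (N - 1 - k) =
        ∑ k ∈ (range (n + 1)).filter (fun k => N - 1 - k ≤ n), z v k * ww n v k := by
      refine Finset.sum_nbij' (fun k => N - 1 - k) (fun k => N - 1 - k) ?_ ?_ ?_ ?_ ?_
      · intro k hk
        rw [Finset.mem_filter, Finset.mem_range] at hk ⊢
        omega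
      · intro k hk
        rw [Finset.mem_filter, Finset.mem_range] at hk ⊢
        omega
      · intro k hk
        rw [Finset.mem_filter, Finset.mem_range] at hk
        show N - 1 - (N - 1 - k) = k
        omega
      · intro k hk
        rw [Finset.mem_filter, Finset.mem_range] at hk
        show N - 1 - (N - 1 - k) = k
        omega
      · intro k hk
        rfl
    rw [dd_ww, Finset.sum_add_distrib, h1, ← Finset.sum_filter_add_sum_filter_not (range (n + 1))
      (fun k => N - 1 - k ≤ n)]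
    ring
  have h1 : Tendsto (fun v => ∑ k ∈ (range (n + 1)).filter (fun k => N - 1 - k ≤ n),
        (z v k * ww n v k + z v (N - 1 - k) * ww n v (N - 1 - k))) (𝓝[≠] (v0 N))
        (𝓝 (∑ k ∈ (range (n + 1)).filter (fun k => N - 1 - k ≤ n), (0 : ℂ))) := by
    apply tendsto_finsetSum
    intro k hk
    rw [Finset.mem_filter, Finset.mem_range] at hk
    exact term_zero hN hn z hz hq (by omega) hk.2
  have h2 : Tendsto (fun v => ∑ k ∈ (range (n + 1)).filter (fun k => ¬ N - 1 - k ≤ n),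
        z v k * ww n v k) (𝓝[≠] (v0 N))
        (𝓝 (∑ k ∈ (range (n + 1)).filter (fun k => ¬ N - 1 - k ≤ n), (0 : ℂ))) := by
    apply tendsto_finsetSum
    intro k hk
    rw [Finset.mem_filter, Finset.mem_range] at hk
    obtain ⟨L, hL⟩ := ww_lim hN hn (k := k) (by omega) (Or.inl (by omega))
    have := (hz k (by omega)).mul hL
    simpa using this
  have h3 := (h1.div_const 2).add h2
  simp only [Finset.sum_const_zero, zero_div, add_zero] at h3
  exact h3.congr fun v => (key v).symm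

lemma yy_l0 {N : ℕ} (hN : 2 ≤ N) (c : ℕ) :
    Tendsto (fun v => zz N (sv N v) c - π) (𝓝[≠] (v0 N)) (𝓝 (ps N c)) := by
  have h1 : Tendsto (fun v => zz N (sv N v) c - π) (𝓝[≠] (v0 N)) (𝓝 (zz N 1 c - π)) := by
    unfold zz
    exact (((tendsto_const_nhds.mul (sv_tendsto hN)).mul tendsto_const_nhds).div_const _).sub
      tendsto_const_nhds
  have h2 : zz N 1 c - π = (ps N c : ℂ) := by
    have hN0 : (N : ℂ) ≠ 0 := by
      have : N ≠ 0 := by omega
      exact_mod_cast this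
    unfold zz ps
    push_cast
    field_simp
  rwa [h2] at h1

lemma ps_symm {N c : ℕ} (hc : c < N) : ps N (N - 1 - c) = - ps N c := by
  unfold ps
  have hN0 : (N : ℝ) ≠ 0 := by
    have : N ≠ 0 := by omega
    exact_mod_cast this
  have h1 : ((N - 1 - c : ℕ) : ℝ) = (N : ℝ) - 1 - c := by
    rw [Nat.sub_sub, Nat.cast_sub (by omega)]
    push_cast
    ring
  rw [h1]
  field_simp
  ring

lemma sin_ps {N c : ℕ} (hc : c < N) (h : 2 * c + 1 ≠ N) : Complex.sin (ps N c) ≠ 0 := by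
  rw [← Complex.ofReal_sin]
  have hN0 : (0 : ℝ) < N := by
    have : 0 < N := by omega
    exact_mod_cast this
  have hlt : (c : ℝ) + 1 ≤ N := by exact_mod_cast hc
  have hc0 : (0 : ℝ) ≤ c := by positivity
  have hp := Real.pi_pos
  have h1 : Real.sin (ps N c) ≠ 0 := by
    rw [Ne, Real.sin_eq_zero_iff_of_lt_of_lt]
    · unfold ps
      intro h0
      rw [div_eq_zero_iff, mul_eq_zero] at h0
      rcases h0 with (h0 | h0) | h0
      · exact hp.ne' h0
      · apply h
        have : (2 * c + 1 : ℝ) = N := by linarith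
        exact_mod_cast this
      · exact hN0.ne' h0
    · unfold ps
      rw [lt_div_iff₀ hN0]
      nlinarith
    · unfold ps
      rw [div_lt_iff₀ hN0]
      nlinarith
  exact_mod_cast h1

lemma yy_l1 {F : ℂ → ℂ} (hF : Differentiable ℂ F) (hev : ∀ z, F (-z) = F z) {N : ℕ} (hN : 2 ≤ N)
    {c : ℕ} (hc : c < N) (h : 2 * c + 1 ≠ N) :
    Tendsto (fun v => (yy F N v c - yy F N v (N - 1 - c)) /
      (Pool.Agent.W711.HT.un v c - Pool.Agent.W711.HT.un v (N - 1 - c))) (𝓝[≠] (v0 N))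
      (𝓝 (deriv F (ps N c) / (2 * Complex.sin (ps N c)))) := by
  have hNp : 0 < N := by omega
  set a : ℂ → ℂ := fun v => zz N (sv N v) c - π with ha
  set b : ℂ → ℂ := fun v => -(zz N (sv N v) (N - 1 - c) - π) with hb
  have hta : Tendsto a (𝓝[≠] (v0 N)) (𝓝 (ps N c)) := yy_l0 hN c
  have htb : Tendsto b (𝓝[≠] (v0 N)) (𝓝 (ps N c)) := by
    have h5 := (yy_l0 hN (N - 1 - c)).neg
    rw [ps_symm hc] at h5
    have e : -((-ps N c : ℝ) : ℂ) = ps N c := by push_cast; ring
    rw [e] at h5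
    exact h5
  have hne := un_ev_ne hN (k := c) (j := N - 1 - c) hc (by omega) (by omega)
  have hua : ∀ v, v ≠ 0 → Pool.Agent.W711.HT.un v c = -2 * Complex.cos (a v) := by
    intro v hv
    rw [un_uu, uu_zz hNp hv, ha]
    simp only [Complex.cos_sub_pi]
    ring
  have hub : ∀ v, v ≠ 0 → Pool.Agent.W711.HT.un v (N - 1 - c) = -2 * Complex.cos (b v) := by
    intro v hv
    rw [un_uu, uu_zz hNp hv, hb]
    simp only [Complex.cos_neg, Complex.cos_sub_pi]
    ring
  have hnz : ∀ᶠ v in 𝓝[≠] (v0 N), v ≠ 0 := by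
    filter_upwards [near0 hN one_pos] with v hv using hv.1
  have hab : ∀ᶠ v in 𝓝[≠] (v0 N), a v ≠ b v := by
    filter_upwards [hne, hnz] with v h1 h2 h3
    apply h1
    rw [hua v h2, hub v h2, h3]
  have h1 := slope2 (F := F) (hF.analyticAt (ps N c : ℂ)).hasStrictDerivAt hta htb hab
  have h2 : HasStrictDerivAt (fun z : ℂ => -2 * Complex.cos z) (2 * Complex.sin (ps N c))
      (ps N c : ℂ) := by
    have := (Complex.hasStrictDerivAt_cos (ps N c : ℂ)).const_mul (-2)
    have e : (2 * Complex.sin (ps N c : ℂ)) = -2 * -Complex.sin (ps N c : ℂ) := by ring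
    rw [e]
    exact this
  have h3 := slope2 h2 hta htb hab
  have h4 := h1.div h3 (mul_ne_zero two_ne_zero (sin_ps hc h))
  refine Tendsto.congr' ?_ h4
  filter_upwards [hne, hnz, hab] with v g1 g2 g3
  have g4 : a v - b v ≠ 0 := sub_ne_zero.2 g3
  simp only [Pi.div_apply]
  rw [← hua v g2, ← hub v g2, div_div_div_cancel_right₀ g4]
  congr 2
  show F (b v) = F (zz N (sv N v) (N - 1 - c) - π)
  rw [hb]
  exact hev _

theorem lmd : S_LMD := by
  intro N x F hN hL n hn
  rw [vN_v0]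
  obtain ⟨hF, hev, l0, l1⟩ := hL
  rw [vN_v0] at l0 l1
  have h1 := lim_yy hF hev hN hn
  have hz : ∀ c < N, Tendsto (fun v => x v c - yy F N v c) (𝓝[≠] (v0 N)) (𝓝 0) := by
    intro c hc
    have h2 : Tendsto (fun v => yy F N v c) (𝓝[≠] (v0 N)) (𝓝 (F (ps N c))) :=
      (hF.continuous.tendsto _).comp (yy_l0 hN c)
    have := (l0 c hc).sub h2
    simpa using this
  have hq : ∀ c < N, 2 * c + 1 ≠ N → Tendsto (fun v => ((x v c - yy F N v c) -
      (x v (N - 1 - c) - yy F N v (N - 1 - c))) /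
      (Pool.Agent.W711.HT.un v c - Pool.Agent.W711.HT.un v (N - 1 - c))) (𝓝[≠] (v0 N)) (𝓝 0) := by
    intro c hc h
    have := (l1 c hc h).sub (yy_l1 hF hev hN hc h)
    rw [sub_self] at this
    refine this.congr fun v => ?_
    ring
  have h2 := dd_zero hN hn (fun v c => x v c - yy F N v c) hz hq
  have h3 := h1.add h2
  rw [add_zero] at h3
  refine h3.congr fun v => ?_
  simp only [dd_ww, ← Finset.sum_add_distrib]
  apply Finset.sum_congr rfl
  intro k _
  ring

end Pool.Agent.W490.AR
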